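import Pool.Agent.helper90.ZD.SpecB

/-!
# Project zd: BC5
-/

set_option autoImplicit false

open Complex MeasureTheory
open scoped ComplexOrder

namespace Pool.Agent.ZD

open Pool.Agent.helper84.DM Pool.Agent.helper78.ED Pool.Agent.DH

theorem BC5_cpow (n : ℕ) (hn : n ≠ 0) (u : ℝ) : (n : ℂ) ^ (-((u : ℂ) * I)) =
    Complex.exp (-(((Real.log n * u : ℝ) : ℂ) * I)) := by
  have hn' : (n : ℂ) ≠ 0 := Nat.cast_ne_zero.mpr hn
  rw [Complex.cpow_def_of_ne_zero hn', ← Complex.natCast_log]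
  congr 1
  push_cast
  ring

/-- the exponential sum over the pairs -/
theorem BC5_sum (A : Finset ℕ) (hA : 0 ∉ A) (u : ℝ) :
    ∑ p ∈ A ×ˢ A, Complex.exp ((((Real.log p.1 - Real.log p.2) * u : ℝ) : ℂ) * I) =
      (starRingEnd ℂ) (PL A u) * PL A u := by
  have hne : ∀ n ∈ A, n ≠ 0 := fun n hn h => hA (h ▸ hn)
  unfold PL
  rw [map_sum, Finset.sum_mul_sum, Finset.sum_product]
  refine Finset.sum_congr rfl fun n hn => Finset.sum_congr rfl fun m hm => ?_
  rw [BC5_cpow n (hne n hn), BC5_cpow m (hne m hm), ← Complex.exp_conj, map_neg, map_mul,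
    Complex.conj_I, Complex.conj_ofReal, ← Complex.exp_add]
  congr 1
  push_cast
  ring

theorem BC5 (h1 : BLM_stmt) (h2 : BLE_stmt) : BC5_stmt := by
  classical
  intro T η Dn W J x A hT hη hW hx hA
  have hT0 : 0 < T := by linarith
  have hη0 : 0 ≤ η := le_trans (by positivity) hη
  have hMI0 : ∀ y, 0 ≤ MI T W η y := fun y =>
    (sq_nonneg _).trans (h1 T η y y W hT hη (by simpa using hη0))
  have hDn0 : 0 ≤ Dn := (Nat.cast_nonneg _).trans (hx.2 0)
  -- one pair `n, m` and one `i'`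
  have hone : ∀ i' ∈ J, ∀ n m : ℕ, ∑ i ∈ J, ‖rho W (x i - x i')‖ ^ 2 *
      (if |x i - x i' - (Real.log n - Real.log m)| ≤ η then (1 : ℝ) else 0) ≤
      Dn * MI T W η (Real.log n - Real.log m) := by
    intro i' hi' n m
    set y : ℝ := Real.log n - Real.log m with hy
    calc ∑ i ∈ J, ‖rho W (x i - x i')‖ ^ 2 * (if |x i - x i' - y| ≤ η then (1 : ℝ) else 0)
        ≤ ∑ i ∈ J, (if |x i - (x i' + y)| ≤ η then MI T W η y else 0) := by
          apply Finset.sum_le_sum
          intro i hi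
          have he : x i - (x i' + y) = x i - x i' - y := by ring
          rw [he]
          split_ifs with h
          · rw [mul_one]
            exact h1 T η _ y W hT hη h
          · rw [mul_zero]
      _ = ((J.filter fun i => |x i - (x i' + y)| ≤ η).card : ℝ) * MI T W η y := by
          rw [← Finset.sum_filter, Finset.sum_const, nsmul_eq_mul]
      _ ≤ Dn * MI T W η y := by
          apply mul_le_mul_of_nonneg_right _ (hMI0 y)
          exact hx.2 (x i' + y)
  have hBLE := h2 (ℕ × ℕ) (A ×ˢ A) (fun p => Real.log p.1 - Real.log p.2) T η W hT hη0 hW.1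
  calc ∑ i ∈ J, ∑ i' ∈ J, ‖rho W (x i - x i')‖ ^ 2 * cnt A (x i - x i') η
      = ∑ i' ∈ J, ∑ n ∈ A, ∑ m ∈ A, ∑ i ∈ J, ‖rho W (x i - x i')‖ ^ 2 *
      (if |x i - x i' - (Real.log n - Real.log m)| ≤ η then (1 : ℝ) else 0) := by
        rw [Finset.sum_comm]
        refine Finset.sum_congr rfl fun i' _ => ?_
        unfold cnt
        simp only [Finset.mul_sum]
        rw [Finset.sum_comm]
        refine Finset.sum_congr rfl fun n _ => ?_
        rw [Finset.sum_comm]
    _ ≤ ∑ i' ∈ J, ∑ n ∈ A, ∑ m ∈ A, Dn * MI T W η (Real.log n - Real.log m) :=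
        Finset.sum_le_sum fun i' hi' => Finset.sum_le_sum fun n _ =>
          Finset.sum_le_sum fun m _ => hone i' hi' n m
    _ = Dn * (J.card : ℝ) * ∑ p ∈ A ×ˢ A, MI T W η (Real.log p.1 - Real.log p.2) := by
        rw [Finset.sum_const, nsmul_eq_mul, Finset.sum_product]
        simp only [Finset.mul_sum]
        refine Finset.sum_congr rfl fun n _ => Finset.sum_congr rfl fun m _ => ?_
        ring
    _ ≤ Dn * (J.card : ℝ) * (20 * T * η * ∑ t ∈ W, ∑ t' ∈ W, ‖∑ p ∈ A ×ˢ A,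
          Complex.exp ((((Real.log p.1 - Real.log p.2) * (t - t') : ℝ) : ℂ) * I)‖) :=
        mul_le_mul_of_nonneg_left hBLE (by positivity)
    _ = 20 * T * η * Dn * (J.card : ℝ) * ∑ t ∈ W, ∑ t' ∈ W, ‖PL A (t - t')‖ ^ 2 := by
        have h3 : ∀ t t' : ℝ, ‖∑ p ∈ A ×ˢ A,
            Complex.exp ((((Real.log p.1 - Real.log p.2) * (t - t') : ℝ) : ℂ) * I)‖ =
            ‖PL A (t - t')‖ ^ 2 := by
          intro t t'
          rw [BC5_sum A hA (t - t'), norm_mul, RCLike.norm_conj, sq]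
        simp only [h3]
        ring

end Pool.Agent.ZD
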