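import Pool.Agent.helper90.ZD.SpecB

/-!
# Project zd: BGD: disjoint intervals
-/

set_option autoImplicit false

open Complex MeasureTheory
open scoped ComplexOrder

namespace Pool.Agent.ZD

open Pool.Agent.helper84.DM Pool.Agent.helper78.ED Pool.Agent.DH

theorem BGD : BGD_stmt := by
  intro T W g hT hW hg hg0
  obtain ⟨hW1, hW2⟩ := hW
  have hint : ∀ a b : ℝ, IntegrableOn g (Set.Ioc a b) := fun a b =>
    (hg.integrableOn_Icc (a := a) (b := b)).mono_set Set.Ioc_subset_Icc_self
  have h1 : ∀ t ∈ W, ∫ x in (t - 1 / 2)..(t + 1 / 2), g x =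
      ∫ x in Set.Ioc (t - 1 / 2) (t + 1 / 2), g x := fun t _ =>
    intervalIntegral.integral_of_le (by linarith)
  rw [Finset.sum_congr rfl h1, intervalIntegral.integral_of_le (by linarith)]
  have hdis : Set.Pairwise (↑W : Set ℝ)
      (Function.onFun Disjoint fun t : ℝ => Set.Ioc (t - 1 / 2) (t + 1 / 2)) := by
    intro t ht t' ht' hne
    have h2 := hW2 t ht t' ht' hne
    rw [Real.rpow_zero] at h2
    show Disjoint (Set.Ioc (t - 1 / 2) (t + 1 / 2)) (Set.Ioc (t' - 1 / 2) (t' + 1 / 2))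
    rw [Set.disjoint_left]
    rintro x ⟨hx1, hx2⟩ ⟨hx3, hx4⟩
    have h3 : |t - t'| < 1 := by
      rw [abs_lt]
      constructor <;> linarith
    linarith
  rw [← MeasureTheory.integral_biUnion_finset W (fun t _ => measurableSet_Ioc) hdis
    (fun t _ => hint _ _)]
  apply MeasureTheory.setIntegral_mono_set (hint _ _)
  · exact Filter.Eventually.of_forall hg0
  · apply Filter.Eventually.of_forall
    intro x hx
    have hx' : x ∈ ⋃ t ∈ W, Set.Ioc (t - 1 / 2) (t + 1 / 2) := hx
    simp only [Set.mem_iUnion] at hx'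
    obtain ⟨t, ht, hx1, hx2⟩ := hx'
    have := hW1 t ht
    show x ∈ Set.Ioc (T - 1 / 2) (2 * T + 1 / 2)
    constructor <;> linarith [this.1, this.2]

end Pool.Agent.ZD
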