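import Pool.Agent.helper90.ZD.SpecB

/-!
# Project zd: BLG: Gaussian means
-/

set_option autoImplicit false

open Complex MeasureTheory
open scoped ComplexOrder

namespace Pool.Agent.ZD

open Pool.Agent.helper84.DM Pool.Agent.helper78.ED Pool.Agent.DH

/-- one frequency -/
theorem BLG_one (T : ℝ) (hT : 0 < T) (u : ℝ) :
    Integrable (fun x : ℝ => Complex.exp (((x * u : ℝ) : ℂ) * I) *
      ((Real.exp (-(x / T) ^ 2) : ℝ) : ℂ)) ∧
    ∫ x : ℝ, Complex.exp (((x * u : ℝ) : ℂ) * I) * ((Real.exp (-(x / T) ^ 2) : ℝ) : ℂ) =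
      ((Real.sqrt Real.pi * T : ℝ) : ℂ) * ((Real.exp (-(T * u) ^ 2 / 4) : ℝ) : ℂ) := by
  have hTc : (T : ℂ) ≠ 0 := Complex.ofReal_ne_zero.mpr hT.ne'
  set b : ℂ := ((-(1 / T ^ 2) : ℝ) : ℂ) with hb
  have hbre : b.re < 0 := by
    rw [hb, Complex.ofReal_re]
    have : 0 < 1 / T ^ 2 := by positivity
    linarith
  have hfun : (fun x : ℝ => Complex.exp (((x * u : ℝ) : ℂ) * I) *
      ((Real.exp (-(x / T) ^ 2) : ℝ) : ℂ)) =
      fun x : ℝ => Complex.exp (b * x ^ 2 + ((u : ℂ) * I) * x + 0) := by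
    funext x
    rw [Complex.ofReal_exp, ← Complex.exp_add, hb]
    congr 1
    push_cast
    field_simp
    ring
  rw [hfun]
  refine ⟨integrable_cexp_quadratic' hbre _ _, ?_⟩
  rw [integral_cexp_quadratic hbre]
  congr 1
  · have h1 : (Real.pi : ℂ) / -b = ((Real.pi * T ^ 2 : ℝ) : ℂ) := by
      rw [hb]
      push_cast
      field_simp
    have h2 : (1 / 2 : ℂ) = ((1 / 2 : ℝ) : ℂ) := by push_cast; rfl
    rw [h1, h2, ← Complex.ofReal_cpow (by positivity), ← Real.sqrt_eq_rpow,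
      Real.sqrt_mul Real.pi_pos.le, Real.sqrt_sq hT.le]
  · rw [Complex.ofReal_exp, hb]
    congr 1
    push_cast
    rw [mul_pow, Complex.I_sq]
    field_simp
    ring

theorem BLG : BLG_stmt := by
  intro J js α m T hT
  have hpt : ∀ x : ℝ, ((‖∑ j ∈ js, α j * Complex.exp (((x * m j : ℝ) : ℂ) * I)‖ ^ 2 *
      Real.exp (-(x / T) ^ 2) : ℝ) : ℂ) = ∑ j ∈ js, ∑ j' ∈ js, α j * (starRingEnd ℂ) (α j') *
        (Complex.exp (((x * (m j - m j') : ℝ) : ℂ) * I) *
          ((Real.exp (-(x / T) ^ 2) : ℝ) : ℂ)) := by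
    intro x
    set E : ℂ := ((Real.exp (-(x / T) ^ 2) : ℝ) : ℂ) with hE
    have h1 : ((‖∑ j ∈ js, α j * Complex.exp (((x * m j : ℝ) : ℂ) * I)‖ ^ 2 *
      Real.exp (-(x / T) ^ 2) : ℝ) : ℂ) =
      ((∑ j ∈ js, α j * Complex.exp (((x * m j : ℝ) : ℂ) * I)) *
        (starRingEnd ℂ) (∑ j ∈ js, α j * Complex.exp (((x * m j : ℝ) : ℂ) * I))) * E := by
      rw [Complex.mul_conj', Complex.ofReal_mul, Complex.ofReal_pow]
    rw [h1, map_sum, Finset.sum_mul_sum, Finset.sum_mul]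
    refine Finset.sum_congr rfl fun j _ => ?_
    rw [Finset.sum_mul]
    refine Finset.sum_congr rfl fun j' _ => ?_
    rw [map_mul, ← Complex.exp_conj, map_mul, Complex.conj_I, Complex.conj_ofReal]
    have h2 : Complex.exp (((x * (m j - m j') : ℝ) : ℂ) * I) =
        Complex.exp (((x * m j : ℝ) : ℂ) * I) * Complex.exp (((x * m j' : ℝ) : ℂ) * -I) := by
      rw [← Complex.exp_add]
      congr 1
      push_cast
      ring
    rw [h2]
    ring
  have hint1 : ∀ j j' : J, Integrable fun x : ℝ => α j * (starRingEnd ℂ) (α j') *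
        (Complex.exp (((x * (m j - m j') : ℝ) : ℂ) * I) *
          ((Real.exp (-(x / T) ^ 2) : ℝ) : ℂ)) := fun j j' =>
    (BLG_one T hT (m j - m j')).1.const_mul _
  have hint : Integrable fun x : ℝ => ((‖∑ j ∈ js, α j *
      Complex.exp (((x * m j : ℝ) : ℂ) * I)‖ ^ 2 * Real.exp (-(x / T) ^ 2) : ℝ) : ℂ) := by
    simp only [hpt]
    exact integrable_finsetSum _ fun j _ => integrable_finsetSum _ fun j' _ => hint1 j j'
  refine ⟨?_, ?_⟩
  · exact hint.re
  · rw [← integral_complex_ofReal]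
    simp only [hpt]
    rw [integral_finsetSum _ fun j _ => integrable_finsetSum _ fun j' _ => hint1 j j',
      Finset.mul_sum]
    refine Finset.sum_congr rfl fun j _ => ?_
    rw [integral_finsetSum _ fun j' _ => hint1 j j', Finset.mul_sum]
    refine Finset.sum_congr rfl fun j' _ => ?_
    rw [integral_const_mul, (BLG_one T hT (m j - m j')).2]
    ring

end Pool.Agent.ZD
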